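import Pool.Agent.H11.KT.Targets

/-!
# MP_0b603e_al, row K_QT (helper74): the number of the fixed tuples in a quotient
-/

set_option autoImplicit false

open scoped commutatorElement

namespace Pool.Agent.H74.KT

open Pool.Agent.H11.EL Pool.Agent.H11.KT

section

variable {G : Type} [Group G]

theorem qt_card (R : Subgroup G) [R.Normal] (B : Set (G ⧸ R)) (A : Set G)
    (h : ∀ g, g ∈ A ↔ (QuotientGroup.mk' R g) ∈ B) :
    Nat.card A = Nat.card R * Nat.card B := by
  have h1 : A = (QuotientGroup.mk : G → G ⧸ R) ⁻¹' B := by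
    ext g
    exact h g
  rw [h1, Nat.card_congr (QuotientGroup.preimageMkEquivSubgroupProdSet R B), Nat.card_prod]

theorem qt_mem (R : Subgroup G) [R.Normal] (M : Subgroup G) (hRM : R ≤ M) (g : G) :
    QuotientGroup.mk' R g ∈ M.map (QuotientGroup.mk' R) ↔ g ∈ M := by
  rw [← Subgroup.mem_comap, Subgroup.comap_map_eq_self]
  rw [QuotientGroup.ker_mk']
  exact hRM

end

theorem pf_QT : K_QT := by
  classical
  intro G _ _ M Z R _ hRZ hZM n t
  have hRM : R ≤ M := hRZ.trans hZM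
  refine ⟨?_, ?_, ?_⟩
  · rw [Nat.card_congr (Equiv.subtypePiEquivPi (p := fun (i : Fin n) (m : M) =>
        ⁅(m : G), t i⁆ ∈ Z)),
      Nat.card_congr (Equiv.subtypePiEquivPi (p := fun (i : Fin n)
        (m : M.map (QuotientGroup.mk' R)) => ⁅(m : G ⧸ R), QuotientGroup.mk' R (t i)⁆ ∈
          Z.map (QuotientGroup.mk' R))), Nat.card_pi, Nat.card_pi]
    have h1 : Nat.card R ^ n = ∏ _i : Fin n, Nat.card R := by
      rw [Finset.prod_const, Finset.card_univ, Fintype.card_fin]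
    rw [h1, ← Finset.prod_mul_distrib]
    refine Finset.prod_congr rfl fun i _ => ?_
    have h2 := qt_card R {g : G ⧸ R | g ∈ M.map (QuotientGroup.mk' R) ∧
      ⁅g, QuotientGroup.mk' R (t i)⁆ ∈ Z.map (QuotientGroup.mk' R)}
      {g : G | g ∈ M ∧ ⁅g, t i⁆ ∈ Z} (by
        intro g
        have h3 : ⁅QuotientGroup.mk' R g, QuotientGroup.mk' R (t i)⁆ =
            QuotientGroup.mk' R ⁅g, t i⁆ := (map_commutatorElement _ _ _).symm
        show (g ∈ M ∧ ⁅g, t i⁆ ∈ Z) ↔ (_ ∧ _)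
        rw [qt_mem R M hRM, h3, qt_mem R Z hRZ])
    rw [Nat.card_congr (Equiv.subtypeSubtypeEquivSubtypeInter (fun g : G => g ∈ M)
        (fun g : G => ⁅g, t i⁆ ∈ Z)),
      Nat.card_congr (Equiv.subtypeSubtypeEquivSubtypeInter
        (fun g : G ⧸ R => g ∈ M.map (QuotientGroup.mk' R))
        (fun g : G ⧸ R => ⁅g, QuotientGroup.mk' R (t i)⁆ ∈ Z.map (QuotientGroup.mk' R)))]
    exact h2
  · exact qt_card R (M.map (QuotientGroup.mk' R) : Set (G ⧸ R)) (M : Set G)
      fun g => (qt_mem R M hRM g).symm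
  · rw [← Subgroup.relIndex_comap, Subgroup.comap_map_eq_self]
    rw [QuotientGroup.ker_mk']
    exact hRZ

end Pool.Agent.H74.KT
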