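import Pool.Agent.H49.KT.Targets

/-!
Board kt_modules, row INC: specification of the successor program.
-/

namespace Pool.Agent.H74.KT

open Pool.Agent.H49.KT
open Turing Function

/-- the list still to be produced, with carry `f` -/
def fin' : Bool → List Bool → List Bool
  | true, l => sc l
  | false, l => l

/-- invariant of the loop -/
def Inv {U : BM} (v₀ : MM U) (u₀ : UU U) (z₀ : Nm → List Bool) (i : ℕ) (v : MM U) (u : UU U)
    (z : Nm → List Bool) : Prop :=
  Reg v₀ v ∧ u = u₀ ∧ ∃ acc : List Bool, z = update (update z₀ .d []) .d' acc ∧
    acc.length = i ∧ acc.reverse ++ fin' v.f ((z₀ .d).drop i) = sc (z₀ .d)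

theorem pf_INC : T_INC := by
  intro U v u z hd
  -- first command
  have h1 : Spec (.load (fun v => v.sf true)) (mkS v u z) (mkS (v.sf true) u z) 1 :=
    sp_load v u z (fun v => v.sf true)
  -- the loop
  obtain ⟨v₂, u₂, z₂, ⟨hR, rfl, acc, rfl, hlen, hacc⟩, -, h2⟩ :=
    sp_lp_inv (v := v.sf true) (u := u) (z := z) (x := .d)
      (c := .ite (fun v => v.f)
        (.ite (fun v => v.a) (pushc .d' false)
          (.seq (pushc .d' true) (.load (fun v => v.sf false))))
        (pusha .d')) (z .d) rfl (Inv v u z) (fun _ => 4)
      (by
        rintro i v' u' z' a ⟨hR, hu, acc, hz, hl, he⟩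
        exact ⟨⟨hR.1, hR.2.1, hR.2.2⟩, hu, acc, hz, hl, he⟩)
      (by
        refine ⟨⟨rfl, rfl, rfl⟩, rfl, [], ?_, rfl, ?_⟩
        · rw [eq_comm, update_eq_iff]
          refine ⟨?_, fun _ _ => rfl⟩
          rw [update_of_ne (by decide), hd]
        · simp [fin'])
      (by
        rintro i hi v' u' z' ⟨hR, rfl, acc, rfl, hl, he⟩ ha
        have hdrop : (z .d).drop i = (z .d)[i] :: (z .d).drop (i + 1) :=
          List.drop_eq_getElem_cons hi
        rw [hdrop, ← ha] at he
        rcases hf : v'.f with _ | _
        · -- no carry
          rw [hf] at he
          refine ⟨v', u', update (update z .d []) .d' (v'.a :: acc), ⟨hR, rfl, v'.a :: acc, rfl,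
            by simp [hl], ?_⟩, ?_⟩
          · rw [hf]
            simpa [fin'] using he
          · have h := sp_pusha v' u' (update (update z .d []) .d' acc) .d'
            rw [update_self, update_idem] at h
            exact (Spec.ite_f (p := fun v : MM U => v.f) hf h).mono (by norm_num)
        · rw [hf] at he
          rcases ha' : v'.a with _ | _
          · -- carry, bit false
            rw [ha'] at he
            refine ⟨v'.sf false, u', update (update z .d []) .d' (true :: acc),
              ⟨⟨hR.1, hR.2.1, hR.2.2⟩, rfl, true :: acc, rfl, by simp [hl], ?_⟩, ?_⟩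
            · simpa [fin', sc] using he
            · have h := sp_pushc v' u' (update (update z .d []) .d' acc) .d' true
              rw [update_self, update_idem] at h
              have h' := h.seq (sp_load _ _ _ (fun v : MM U => v.sf false))
              exact (Spec.ite_t (p := fun v : MM U => v.f) hf
                (Spec.ite_f (p := fun v : MM U => v.a) ha' h')).mono (by norm_num)
          · -- carry, bit true
            rw [ha'] at he
            refine ⟨v', u', update (update z .d []) .d' (false :: acc),
              ⟨hR, rfl, false :: acc, rfl, by simp [hl], ?_⟩, ?_⟩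
            · rw [hf]
              simpa [fin', sc] using he
            · have h := sp_pushc v' u' (update (update z .d []) .d' acc) .d' false
              rw [update_self, update_idem] at h
              exact (Spec.ite_t (p := fun v : MM U => v.f) hf
                (Spec.ite_t (p := fun v : MM U => v.a) ha' h)).mono (by norm_num))
  -- the last carry
  have h3 : Spec (.ite (fun v => v.f) (pushc .d' false) skip)
      (mkS v₂ u₂ (update (update z .d []) .d' acc))
      (mkS v₂ u₂ (update (update z .d []) .d' ((fin' v₂.f []).reverse ++ acc))) 2 := by
    rcases hf : v₂.f with _ | _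
    · exact (Spec.ite_f (p := fun v : MM U => v.f) hf (sp_skip _ _ _)).mono (by norm_num)
    · have h := sp_pushc v₂ u₂ (update (update z .d []) .d' acc) .d' false
      rw [update_self, update_idem] at h
      exact (Spec.ite_t (p := fun v : MM U => v.f) hf h).mono (by norm_num)
  have h4 := sp_mv v₂ u₂ (update (update z .d []) .d' ((fin' v₂.f []).reverse ++ acc))
    (x := .d') (y := .d) (by decide)
  have e1 : (fin' v₂.f []).length ≤ 1 := by
    rcases v₂.f with _ | _ <;> simp [fin', sc]
  have hz : update (update (update (update z .d []) .d' ((fin' v₂.f []).reverse ++ acc)) .d' [])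
      .d ((update (update z .d []) .d' ((fin' v₂.f []).reverse ++ acc) .d').reverse ++
        update (update z .d []) .d' ((fin' v₂.f []).reverse ++ acc) .d) =
      update z .d (sc (z .d)) := by
    have hacc' : acc.reverse ++ fin' v₂.f [] = sc (z .d) := by
      rw [← hacc, List.drop_length]
    funext k
    by_cases hk : k = .d
    · subst hk
      rw [update_self, update_self, update_self, update_of_ne (by decide), update_self, ← hacc']
      simp
    · rw [update_of_ne hk, update_of_ne hk]
      by_cases hk' : k = .d'
      · subst hk'
        rw [update_self, hd]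
      · rw [update_of_ne hk', update_of_ne hk', update_of_ne hk]
  rw [hz] at h4
  refine ⟨v₂.sa false, ⟨hR.1, hR.2.1, hR.2.2⟩, ?_⟩
  refine (h1.seq (h2.seq (h3.seq h4))).mono ?_
  simp only [Finset.sum_const, Finset.card_range, smul_eq_mul, update_self, List.length_append,
    List.length_reverse]
  omega

end Pool.Agent.H74.KT
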